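import Pool.Agent.H359R4.CubMain

/-!
Let `S` be a set containing a prime congruent to `1` modulo `3` and let `e ∈ {0, 1}`. For
arbitrarily large `X`, at least `X / (log X)^41` of the integers `k` in `(X, 2X]` satisfy
`3k^2+3k+1 = s^2 m` with `m` squarefree, `s ≤ (log X)^45`, and a number of primes of `S` dividing
`m` which is congruent to `e` modulo `2`.
-/

theorem Pool.Agent.Results.MP_22d6bb_nt.BothParities.result
    (S : Set ℕ) (hS : ∃ p ∈ S, p.Prime ∧ p % 3 = 1) (e : ℕ) (he : e < 2) (X0 : ℕ) :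
    ∃ X : ℕ, X0 ≤ X ∧ (X : ℝ) / Real.log X ^ 41 ≤
      (Set.ncard {k : ℕ | X < k ∧ k ≤ 2 * X ∧ ∃ s m : ℕ, 3 * k ^ 2 + 3 * k + 1 = s ^ 2 * m ∧
        Squarefree m ∧ (s : ℝ) ≤ Real.log X ^ 45 ∧
        Set.ncard {p : ℕ | p.Prime ∧ p ∣ m ∧ p ∈ S} % 2 = e} : ℝ) :=
  H359R4.cub_main S hS e he X0
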