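import Mathlib
import Pool.Agent.H186R2.Par.Cuban

set_option autoImplicit false

/-- For each sign `e` and every `ε > 0`, for all large `N` there are at least `N ^ (1 - ε)` integers
`k` with `1 ≤ k ≤ N` such that `(k + 1) ^ 3 - k ^ 3 = s ^ 2 * m` with `s ≤ N ^ ε` and `μ(m) = e`
(so `m` is squarefree). -/
theorem Pool.Agent.Results.MP_22d6bb_nt.CubanParity.result (e : ℤ) (he : e = 1 ∨ e = -1)
    (ε : ℝ) (hε : 0 < ε) :
    ∃ N₀ : ℕ, ∀ N : ℕ, N₀ ≤ N → (N : ℝ) ^ (1 - ε) ≤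
      (Set.ncard {k : ℕ | 1 ≤ k ∧ k ≤ N ∧ ∃ s m : ℕ,
        (k + 1) ^ 3 = k ^ 3 + s ^ 2 * m ∧ (s : ℝ) ≤ (N : ℝ) ^ ε ∧
          ArithmeticFunction.moebius m = e} : ℝ) := by
  classical
  obtain ⟨N₀, hN₀⟩ := Pool.Agent.H186R2.Par.cuban_mu e he ε hε
  refine ⟨N₀, fun N hN => ?_⟩
  have h := hN₀ N hN
  have e1 : {k : ℕ | 1 ≤ k ∧ k ≤ N ∧ ∃ s m : ℕ,
        (k + 1) ^ 3 = k ^ 3 + s ^ 2 * m ∧ (s : ℝ) ≤ (N : ℝ) ^ ε ∧
          ArithmeticFunction.moebius m = e} =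
      (((Finset.Icc 1 N).filter (fun n : ℕ => ∃ s m : ℕ,
        3 * n ^ 2 + 3 * n + 1 = s ^ 2 * m ∧ (s : ℝ) ≤ (N : ℝ) ^ ε ∧
          ArithmeticFunction.moebius m = e) : Finset ℕ) : Set ℕ) := by
    ext k
    rw [Finset.mem_coe, Finset.mem_filter, Finset.mem_Icc, Set.mem_setOf_eq, and_assoc]
    have e2 : (k + 1) ^ 3 = k ^ 3 + (3 * k ^ 2 + 3 * k + 1) := by ring
    rw [e2]
    simp only [add_right_inj]
  rw [e1, Set.ncard_coe_finset]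
  convert h using 2
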