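import Pool.Agent.H912R3.QG.Main

set_option autoImplicit false

/-! # Composite values of a non monic quadratic polynomial at an arbitrary set of prescribed places

Let `f = a x ^ 2 + b x + c`, `a ≥ 2`, have non square discriminant (for instance `3 x ^ 2 + 3 x + 1`). For
every finite set `S` of integers of size at most `exp ((log X) ^ A)` with at most `κ log X log log X` elements,
every interval of length `X` contains a `k` for which all the values `f(k + s)`, `s ∈ S`, are composite, with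
a prime factor at most `exp ((log X) ^ (1 / 20))`. -/

namespace Pool.Agent.Results.MP_22d6bb_nt.PrescribedComposites

theorem result : ∀ a b c : ℤ, 2 ≤ a → ¬ IsSquare (b ^ 2 - 4 * a * c) → ∀ A : ℕ,
    ∃ κ : ℝ, 0 < κ ∧ ∃ X₀ : ℝ, ∀ X : ℝ, X₀ ≤ X →
    ∀ S : Finset ℤ, (∀ s ∈ S, |(s : ℝ)| ≤ Real.exp ((Real.log X) ^ A)) →
    (S.card : ℝ) ≤ κ * (Real.log X * Real.log (Real.log X)) →
    ∀ z : ℤ, ∃ k : ℤ, z < k ∧ (k : ℝ) ≤ z + X ∧
      ∀ s ∈ S, ¬ Prime (a * (k + s) ^ 2 + b * (k + s) + c) ∧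
        ∃ p : ℕ, p.Prime ∧ (p : ℝ) ≤ Real.exp ((Real.log X) ^ (1 / 20 : ℝ)) ∧
          (p : ℤ) ∣ a * (k + s) ^ 2 + b * (k + s) + c := by
  intro a b c ha hsq A
  have hD0 : b ^ 2 - 4 * a * c ≠ 0 := by
    intro h
    exact hsq (h ▸ ⟨0, by norm_num⟩)
  set M : ℕ := (4 * a).toNat + 4 with hM
  have hMa : (M : ℤ) = 4 * a + 4 := by omega
  obtain ⟨κ, hκ, X₀, h⟩ := Pool.Agent.H912R3.QG.two_squares_large (b ^ 2 - 4 * a * c) hD0 hsq M
    (by omega) (A + 1)
  have ha0 : (0 : ℝ) < a := by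
    have : (0 : ℤ) < a := by omega
    exact_mod_cast this
  have ha2 : (2 : ℝ) ≤ a := by exact_mod_cast ha
  set K : ℝ := 8 * (a : ℝ) + 4 * |(b : ℝ)| + 20 with hK
  refine ⟨κ / (2 * a), by positivity, max X₀ (Real.exp K), fun X hX S hS hc2 z => ?_⟩
  have hX0 : X₀ ≤ X := (le_max_left _ _).trans hX
  have hXe : Real.exp K ≤ X := (le_max_right _ _).trans hX
  have hXpos : 0 < X := (Real.exp_pos _).trans_le hXe
  have hLK : K ≤ Real.log X := by
    rw [Real.le_log_iff_exp_le hXpos]; exact hXe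
  have hb0 : 0 ≤ |(b : ℝ)| := abs_nonneg _
  have hX2 : 2 ≤ X := by
    have := Real.add_one_le_exp K
    linarith
  set L := Real.log X with hL
  have hL20 : 20 ≤ L := by linarith
  have hLA : 1 ≤ L ^ A := one_le_pow₀ (by linarith)
  have hE1 : 4 * (a : ℝ) * Real.exp (L ^ A) ≤ Real.exp (L ^ (A + 1)) := by
    have h8 : 4 * (a : ℝ) ≤ Real.exp (L - 1) := by
      have := Real.add_one_le_exp (L - 1)
      linarith
    calc 4 * (a : ℝ) * Real.exp (L ^ A) ≤ Real.exp (L - 1) * Real.exp (L ^ A) := by gcongr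
      _ = Real.exp (L - 1 + L ^ A) := by rw [Real.exp_add]
      _ ≤ Real.exp (L ^ (A + 1)) := by
          apply Real.exp_le_exp.2
          rw [pow_succ]
          nlinarith
  have hE2 : L ≤ Real.exp (L ^ (A + 1)) := by
    have h1 : L ≤ L ^ (A + 1) := by
      rw [pow_succ]
      nlinarith
    have h2 := Real.add_one_le_exp (L ^ (A + 1))
    linarith
  set F : Finset (ℤ × ℕ) := (Finset.range (2 * a).toNat ×ˢ S).image
    (fun y => (2 * a * y.2 + b - (y.1 : ℤ), 1)) with hF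
  have hF1 : ∀ x ∈ F, 1 ≤ x.2 ∧ |(x.1 : ℝ)| ≤ Real.exp (L ^ (A + 1)) ∧
      (x.2 : ℝ) ≤ Real.exp (L ^ (A + 1)) := by
    intro x hx
    rw [hF, Finset.mem_image] at hx
    obtain ⟨⟨r, s⟩, hy, rfl⟩ := hx
    rw [Finset.mem_product, Finset.mem_range] at hy
    refine ⟨le_rfl, ?_, ?_⟩
    · have h1 := hS s hy.2
      have h2 : (r : ℝ) ≤ 2 * a := by
        have : (r : ℤ) ≤ 2 * a := by have := hy.1; omega
        exact_mod_cast this
      have hr0 : (0 : ℝ) ≤ r := Nat.cast_nonneg r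
      push_cast
      have h3 : |2 * (a : ℝ) * s + b - r| ≤ 2 * a * |(s : ℝ)| + |(b : ℝ)| + r := by
        calc |2 * (a : ℝ) * s + b - r| ≤ |2 * (a : ℝ) * s + b| + |(r : ℝ)| := abs_sub _ _
          _ ≤ |2 * (a : ℝ) * s| + |(b : ℝ)| + |(r : ℝ)| := by gcongr; exact abs_add_le _ _
          _ = 2 * a * |(s : ℝ)| + |(b : ℝ)| + r := by
              rw [abs_mul, abs_of_pos (by positivity : (0 : ℝ) < 2 * a), abs_of_nonneg hr0]
      have h4 : 2 * (a : ℝ) * |(s : ℝ)| ≤ 2 * a * Real.exp (L ^ A) := by gcongr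
      have h5 : |(b : ℝ)| + r ≤ L / 2 := by linarith
      linarith
    · push_cast
      linarith
  have hFs : ∑ x ∈ F, ((x.2 : ℝ) / Nat.totient x.2) ^ 2 ≤ κ * (L * Real.log L) := by
    have h1 : ∀ x ∈ F, ((x.2 : ℝ) / Nat.totient x.2) ^ 2 = 1 := by
      intro x hx
      rw [hF, Finset.mem_image] at hx
      obtain ⟨y, _, rfl⟩ := hx
      simp
    rw [Finset.sum_congr rfl h1, Finset.sum_const, nsmul_eq_mul, mul_one]
    have h2 : F.card ≤ (2 * a).toNat * S.card := by
      refine Finset.card_image_le.trans ?_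
      rw [Finset.card_product, Finset.card_range]
    have h3 : (F.card : ℝ) ≤ (2 * a) * S.card := by
      have h4 : (F.card : ℤ) ≤ (2 * a) * S.card := by
        have h5 : ((2 * a).toNat : ℤ) = 2 * a := Int.toNat_of_nonneg (by omega)
        rw [← h5]
        exact_mod_cast h2
      exact_mod_cast h4
    calc (F.card : ℝ) ≤ (2 * a) * S.card := h3
      _ ≤ (2 * a) * (κ / (2 * a) * (L * Real.log L)) := by gcongr
      _ = κ * (L * Real.log L) := by field_simp
  obtain ⟨n, n1, n2, n3⟩ := h X hX0 F hF1 hFs (2 * a * z + 2 * a)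
  have hdm := Int.emod_add_mul_ediv n (2 * a)
  have hr0 := Int.emod_nonneg n (show 2 * a ≠ 0 by omega)
  have hr1 := Int.emod_lt_of_pos n (show 0 < 2 * a by omega)
  set k := n / (2 * a) with hk
  set r := n % (2 * a) with hr
  refine ⟨k, ?_, ?_, fun s hs => ?_⟩
  · by_contra hcon
    push Not at hcon
    have h1 : 2 * a * k ≤ 2 * a * z := mul_le_mul_of_nonneg_left hcon (by omega)
    linarith
  · have h1 : (2 * a * k : ℤ) ≤ n := by linarith
    have h2 : 2 * (a : ℝ) * k ≤ n := by exact_mod_cast h1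
    have h3 : (n : ℝ) ≤ 2 * a * z + 2 * a + X := by
      push_cast at n2
      exact n2
    have h4 : 2 * (a : ℝ) * k ≤ 2 * a * (z + X) := by
      have h5 : 2 * (a : ℝ) + X ≤ 2 * a * X := by nlinarith
      linarith
    exact le_of_mul_le_mul_left h4 (by positivity)
  · obtain ⟨p, hp, hpM, hpE, hpd, hpl⟩ := n3 (2 * a * s + b - (r.toNat : ℤ), 1) (by
      rw [hF, Finset.mem_image]
      exact ⟨(r.toNat, s), Finset.mem_product.2 ⟨Finset.mem_range.2 (by dsimp only; omega), hs⟩, rfl⟩)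
    have hrr : (r.toNat : ℤ) = r := Int.toNat_of_nonneg hr0
    have e : (n + (2 * a * s + b - (r.toNat : ℤ))) ^ 2 +
        -((b ^ 2 - 4 * a * c) * ((1 : ℕ) : ℤ) ^ 2) =
        4 * a * (a * (k + s) ^ 2 + b * (k + s) + c) := by
      rw [hrr]
      have h1 : n = r + 2 * a * k := by linarith
      rw [h1]
      push_cast
      ring
    simp only at hpd hpl
    rw [e] at hpd hpl
    have hpi : Prime (p : ℤ) := Nat.prime_iff_prime_int.1 hp
    have hpa : ¬ (p : ℤ) ∣ 4 * a := by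
      intro hd
      have h1 := Int.le_of_dvd (by omega) hd
      omega
    have h1 : (p : ℤ) ∣ a * (k + s) ^ 2 + b * (k + s) + c := by
      rcases hpi.dvd_or_dvd hpd with h2 | h2
      · exact absurd h2 hpa
      · exact h2
    refine ⟨fun hpr => ?_, p, hp, hpE, h1⟩
    have h5 : (p : ℤ).natAbs = (a * (k + s) ^ 2 + b * (k + s) + c).natAbs :=
      Int.associated_iff_natAbs.1 ((Prime.dvd_prime_iff_associated hpi hpr).1 h1)
    rw [abs_mul, Int.abs_eq_natAbs (a * (k + s) ^ 2 + b * (k + s) + c), ← h5, Int.natAbs_natCast,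
      abs_of_pos (by omega : (0 : ℤ) < 4 * a), hMa] at hpl
    have h6 : (0 : ℤ) < p := by exact_mod_cast hp.pos
    nlinarith

end Pool.Agent.Results.MP_22d6bb_nt.PrescribedComposites
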